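import Pool.Agent.Helper40.Ct.Goals

/-! # Packet COC of MP_034a88_co: the signed indicator of the cone is a cocycle -/

set_option autoImplicit false

open Finset

namespace Pool.Agent.Helper27.Ct

open Pool.Agent.Helper40.Ct

variable {N : ℕ}

/-- nonnegative solutions -/
def Sol (b : Fin N → ℝ) (w : Fin (N + 1) → (Fin N → ℝ)) (c : Fin (N + 1) → ℝ) : Prop :=
  (∀ s, 0 ≤ c s) ∧ ∑ s, c s • w s = b

/-- the coefficients of the relation -/
noncomputable def kap (w : Fin (N + 1) → (Fin N → ℝ)) (i : Fin (N + 1)) : ℝ :=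
  (-1) ^ (i : ℕ) * (Matrix.of fun s => w (i.succAbove s)).det

theorem kap_rel (w : Fin (N + 1) → (Fin N → ℝ)) : ∑ i, kap w i • w i = 0 := by
  funext k
  set M : Matrix (Fin (N + 1)) (Fin (N + 1)) ℝ :=
    Matrix.of fun s => (Fin.cons (w s k) (w s) : Fin (N + 1) → ℝ) with hM
  have h0 : M.det = 0 := by
    refine Matrix.det_zero_of_column_eq (i := 0) (j := k.succ) (Fin.succ_ne_zero k).symm ?_
    intro s
    simp [hM]
  rw [Matrix.det_succ_column_zero] at h0
  rw [Finset.sum_apply, Pi.zero_apply, ← h0]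
  refine Finset.sum_congr rfl fun i _ => ?_
  have e : M.submatrix i.succAbove Fin.succ = Matrix.of fun s => w (i.succAbove s) := by
    ext s t
    simp [hM]
  rw [e]
  simp only [kap, Pi.smul_apply, smul_eq_mul, hM, Matrix.of_apply, Fin.cons_zero]
  ring

theorem exists_rel (w : Fin (N + 1) → (Fin N → ℝ)) :
    ∃ μ : Fin (N + 1) → ℝ, μ ≠ 0 ∧ ∑ s, μ s • w s = 0 := by
  set M : Matrix (Fin (N + 1)) (Fin (N + 1)) ℝ :=
    Matrix.of fun s => (Fin.cons 0 (w s) : Fin (N + 1) → ℝ) with hM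
  have h0 : M.det = 0 := by
    refine Matrix.det_eq_zero_of_column_eq_zero 0 ?_
    intro s
    simp [hM]
  obtain ⟨v, hv, hv0⟩ := Matrix.exists_vecMul_eq_zero_iff.2 h0
  refine ⟨v, hv, ?_⟩
  funext k
  have h1 := congrFun hv0 k.succ
  simp only [Matrix.vecMul, dotProduct, hM, Matrix.of_apply, Fin.cons_succ, Pi.zero_apply] at h1
  rw [Finset.sum_apply, Pi.zero_apply, ← h1]
  rfl

variable (b : Fin N → ℝ) (w : Fin (N + 1) → (Fin N → ℝ)) (ℓ : (Fin N → ℝ) →ₗ[ℝ] ℝ)

theorem exists_neg (hℓ : ∀ s, 0 < ℓ (w s)) (μ : Fin (N + 1) → ℝ) (hμ : μ ≠ 0)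
    (hr : ∑ s, μ s • w s = 0) : ∃ j, μ j < 0 := by
  by_contra hcon
  push Not at hcon
  apply hμ
  have h1 : ∑ s, μ s * ℓ (w s) = 0 := by
    have := congrArg ℓ hr
    simpa using this
  rw [Finset.sum_eq_zero_iff_of_nonneg (fun s _ => mul_nonneg (hcon s) (hℓ s).le)] at h1
  funext s
  have h2 := h1 s (mem_univ s)
  rcases mul_eq_zero.1 h2 with h | h
  · exact h
  · exact absurd h (hℓ s).ne'

theorem move (hℓ : ∀ s, 0 < ℓ (w s)) {c μ : Fin (N + 1) → ℝ} (hc : Sol b w c) (hμ : μ ≠ 0)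
    (hr : ∑ s, μ s • w s = 0) :
    ∃ c', Sol b w c' ∧ (∃ j, μ j < 0 ∧ c' j = 0) ∧ ∀ s, c s = 0 → μ s = 0 → c' s = 0 := by
  classical
  obtain ⟨j₀, hj₀⟩ := exists_neg w ℓ hℓ μ hμ hr
  obtain ⟨j, hj, hmin⟩ := Finset.exists_min_image (univ.filter fun s => μ s < 0)
    (fun s => c s / (-μ s)) ⟨j₀, by simp [hj₀]⟩
  have hj' : μ j < 0 := by simpa using hj
  have ht : 0 ≤ c j / (-μ j) := div_nonneg (hc.1 j) (by linarith)
  refine ⟨fun s => c s + c j / (-μ j) * μ s, ⟨?_, ?_⟩, ⟨j, hj', ?_⟩, ?_⟩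
  · intro s
    rcases lt_or_ge (μ s) 0 with h | h
    · have h1 := hmin s (by simp [h])
      have h2 : c j / (-μ j) * (-μ s) ≤ c s := by
        rw [← le_div_iff₀ (by linarith)]
        exact h1
      linarith
    · exact add_nonneg (hc.1 s) (mul_nonneg ht h)
  · simp only [add_smul, mul_smul, Finset.sum_add_distrib, ← Finset.smul_sum, hr, smul_zero,
      add_zero]
    exact hc.2
  · have : μ j ≠ 0 := hj'.ne
    field_simp
    ring
  · intro s h1 h2
    show c s + c j / (-μ j) * μ s = 0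
    rw [h1, h2]
    simp

variable (H : ∀ c, Sol b w c → ∀ i j, i ≠ j → c i = 0 → c j ≠ 0)

include H in
theorem kap_ne (hℓ : ∀ s, 0 < ℓ (w s)) {c : Fin (N + 1) → ℝ} (hc : Sol b w c) {i : Fin (N + 1)}
    (hi : c i = 0) : kap w i ≠ 0 := by
  intro h
  have hdet : (Matrix.of fun s => w (i.succAbove s)).det = 0 := by
    rcases mul_eq_zero.1 h with h1 | h1
    · exact absurd h1 (pow_ne_zero _ (by norm_num))
    · exact h1
  obtain ⟨v, hv, hv0⟩ := Matrix.exists_vecMul_eq_zero_iff.2 hdet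
  set μ : Fin (N + 1) → ℝ := i.insertNth 0 v with hμdef
  have hμi : μ i = 0 := by simp [hμdef]
  have hμs : ∀ s, μ (i.succAbove s) = v s := fun s => by simp [hμdef]
  have hμ : μ ≠ 0 := by
    intro h1
    apply hv
    funext s
    rw [← hμs, h1]
    rfl
  have hr : ∑ s, μ s • w s = 0 := by
    rw [Fin.sum_univ_succAbove _ i, hμi, zero_smul, zero_add]
    simp only [hμs]
    funext k
    have h1 := congrFun hv0 k
    simp only [Matrix.vecMul, dotProduct, Matrix.of_apply, Pi.zero_apply] at h1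
    rw [Finset.sum_apply, Pi.zero_apply, ← h1]
    rfl
  obtain ⟨c', hc', ⟨j, hj, hj0⟩, hz⟩ := move b w ℓ hℓ hc hμ hr
  have hij : i ≠ j := by
    rintro rfl
    rw [hμi] at hj
    exact lt_irrefl _ hj
  exact H c' hc' i j hij (hz i hi hμi) hj0

theorem rel_prop {i : Fin (N + 1)} (hi : kap w i ≠ 0) (μ : Fin (N + 1) → ℝ)
    (hr : ∑ s, μ s • w s = 0) : ∃ t : ℝ, ∀ s, μ s = t * kap w s := by
  refine ⟨μ i / kap w i, ?_⟩
  set ν : Fin (N + 1) → ℝ := fun s => μ s - μ i / kap w i * kap w s with hν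
  have hνi : ν i = 0 := by
    simp only [hν]
    field_simp
    ring
  have hνr : ∑ s, ν s • w s = 0 := by
    simp only [hν, sub_smul, mul_smul, Finset.sum_sub_distrib, ← Finset.smul_sum, kap_rel,
      smul_zero, hr, sub_zero]
  rw [Fin.sum_univ_succAbove _ i, hνi, zero_smul, zero_add] at hνr
  have hdet : (Matrix.of fun s => w (i.succAbove s)).det ≠ 0 := fun h => hi (by
    simp [kap, h])
  have h0 : (fun s => ν (i.succAbove s)) = 0 := by
    apply Matrix.eq_zero_of_vecMul_eq_zero hdet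
    funext k
    have h1 := congrFun hνr k
    rw [Finset.sum_apply, Pi.zero_apply] at h1
    simp only [Matrix.vecMul, dotProduct, Matrix.of_apply, Pi.zero_apply]
    rw [← h1]
    rfl
  intro s
  have h2 : ν s = 0 := by
    rcases eq_or_ne s i with rfl | hs
    · exact hνi
    · obtain ⟨t, rfl⟩ := Fin.exists_succAbove_eq hs
      exact congrFun h0 t
  simp only [hν] at h2
  linarith

include H in
theorem uniq (hℓ : ∀ s, 0 < ℓ (w s)) {c c' : Fin (N + 1) → ℝ} (hc : Sol b w c)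
    (hc' : Sol b w c') {i j : Fin (N + 1)} (hi : c i = 0) (hj : c' j = 0)
    (hs : 0 < kap w i * kap w j) : i = j := by
  by_contra hij
  have hne := kap_ne b w ℓ H hℓ hc hi
  obtain ⟨t, ht⟩ := rel_prop w hne (fun s => c s - c' s) (by
    simp only [sub_smul, Finset.sum_sub_distrib, hc.2, hc'.2, sub_self])
  have h1 := ht i
  have h2 := ht j
  simp only [hi, hj] at h1 h2
  have h3 := hc'.1 i
  have h4 := hc.1 j
  have ht0 : t = 0 := by
    by_contra htn
    have h5 : 0 < (t * kap w i) * (t * kap w j) := by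
      have : (t * kap w i) * (t * kap w j) = t ^ 2 * (kap w i * kap w j) := by ring
      rw [this]
      positivity
    rw [← h1, ← h2] at h5
    nlinarith
  rw [ht0, zero_mul] at h1 h2
  exact H c hc i j hij hi (by linarith)

theorem sign_mul (i : ℕ) (x : ℝ) :
    ((-1 : ℤ)) ^ i * ((SignType.sign x : SignType) : ℤ) =
      ((SignType.sign ((-1 : ℝ) ^ i * x) : SignType) : ℤ) := by
  rcases Nat.even_or_odd i with h | h
  · rw [h.neg_one_pow, h.neg_one_pow, one_mul, one_mul]
  · rw [h.neg_one_pow, h.neg_one_pow, neg_one_mul, neg_one_mul, Left.sign_neg]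
    simp

open Classical in
include H in
theorem main (hℓ : ∀ s, 0 < ℓ (w s)) :
    ∑ i : Fin (N + 1), (if ∃ c, Sol b w c ∧ c i = 0 then
      ((SignType.sign (kap w i) : SignType) : ℤ) else 0) = 0 := by
  by_cases hS : ∃ c, Sol b w c
  · obtain ⟨c, hc⟩ := hS
    obtain ⟨μ, hμ, hr⟩ := exists_rel w
    obtain ⟨c₁, hc₁, ⟨i₁, _, hi₁⟩, _⟩ := move b w ℓ hℓ hc hμ hr
    have hk1 : kap w i₁ ≠ 0 := kap_ne b w ℓ H hℓ hc₁ hi₁
    have hk : kap w ≠ 0 := fun h => hk1 (congrFun h i₁)
    obtain ⟨cn, hcn, ⟨n, hn, hn0⟩, _⟩ := move b w ℓ hℓ hc hk (kap_rel w)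
    obtain ⟨cp, hcp, ⟨p, hp, hp0⟩, _⟩ := move b w ℓ hℓ hc (μ := fun s => -kap w s)
      (fun h => hk (funext fun s => by
        have := congrFun h s
        simpa using this)) (by
        simp only [neg_smul, Finset.sum_neg_distrib, kap_rel, neg_zero])
    have hp' : 0 < kap w p := by linarith
    have hpn : p ≠ n := by
      rintro rfl
      linarith
    rw [Finset.sum_eq_add p n hpn]
    · rw [if_pos ⟨cp, hcp, hp0⟩, if_pos ⟨cn, hcn, hn0⟩, sign_pos hp', sign_neg hn]
      simp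
    · intro i _ hi
      rw [if_neg]
      rintro ⟨c', hc', hc'i⟩
      have hne := kap_ne b w ℓ H hℓ hc' hc'i
      rcases lt_or_gt_of_ne hne with h | h
      · exact hi.2 (uniq b w ℓ H hℓ hc' hcn hc'i hn0 (mul_pos_of_neg_of_neg h hn))
      · exact hi.1 (uniq b w ℓ H hℓ hc' hcp hc'i hp0 (mul_pos h hp'))
    · intro h
      exact absurd (mem_univ p) h
    · intro h
      exact absurd (mem_univ n) h
  · refine Finset.sum_eq_zero fun i _ => ?_
    rw [if_neg]
    rintro ⟨c, hc, _⟩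
    exact hS ⟨c, hc⟩

open Classical in
theorem dg_eq (i : Fin (N + 1)) :
    (-1 : ℤ) ^ (i : ℕ) * dg b (fun s => w (i.succAbove s)) =
      (if ∃ c, Sol b w c ∧ c i = 0 then ((SignType.sign (kap w i) : SignType) : ℤ) else 0) := by
  have hiff : (∃ c : Fin N → ℝ, (∀ s, 0 ≤ c s) ∧ ∑ s, c s • w (i.succAbove s) = b) ↔
      ∃ c, Sol b w c ∧ c i = 0 := by
    constructor
    · rintro ⟨c, hc, hs⟩
      refine ⟨i.insertNth 0 c, ⟨?_, ?_⟩, by simp⟩
      · intro s
        rcases eq_or_ne s i with rfl | h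
        · simp
        · obtain ⟨t, rfl⟩ := Fin.exists_succAbove_eq h
          simpa using hc t
      · rw [Fin.sum_univ_succAbove _ i]
        simpa using hs
    · rintro ⟨c, ⟨hc, hs⟩, hi⟩
      refine ⟨fun s => c (i.succAbove s), fun s => hc _, ?_⟩
      rw [Fin.sum_univ_succAbove _ i, hi, zero_smul, zero_add] at hs
      exact hs
  unfold dg
  by_cases h : ∃ c, Sol b w c ∧ c i = 0
  · rw [if_pos (hiff.2 h), if_pos h, sign_mul]
    rfl
  · rw [if_neg (fun h' => h (hiff.1 h')), if_neg h, mul_zero]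

theorem coc : COC := by
  classical
  intro N b l ℓ hl hpos hH
  set w : Fin (N + 1) → (Fin N → ℝ) := fun s => l.get (Fin.cast hl.symm s) with hw
  have hℓ : ∀ s, 0 < ℓ (w s) := fun s => hpos _ (List.get_mem l _)
  have H : ∀ c, Sol b w c → ∀ i j, i ≠ j → c i = 0 → c j ≠ 0 := by
    intro c hc i j hij hi hj
    have hN : 1 ≤ N := by
      by_contra hN
      have : N = 0 := by omega
      subst this
      exact hij (Fin.ext (by omega))
    refine hH ((univ.erase (Fin.cast hl.symm i)).erase (Fin.cast hl.symm j))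
      (fun s => c (Fin.cast hl s)) ?_ (fun s => hc.1 _) ?_
    · rw [Finset.card_erase_of_mem, Finset.card_erase_of_mem (mem_univ _), Finset.card_univ,
        Fintype.card_fin, hl]
      · omega
      · rw [Finset.mem_erase]
        exact ⟨fun h => hij ((Fin.cast_injective _ h).symm), mem_univ _⟩
    · rw [Finset.sum_erase, Finset.sum_erase]
      · rw [← hc.2]
        refine Fintype.sum_equiv (finCongr hl) _ _ fun s => ?_
        rfl
      · simp [hi]
      · simp [hj]
  have hmain := main b w ℓ H hℓ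
  unfold bdf
  rw [Finset.sum_range, ← hmain]
  refine Fintype.sum_equiv (finCongr hl) _ _ fun i => ?_
  rw [← dg_eq]
  have hlen : (l.eraseIdx (i : ℕ)).length = N := by
    rw [List.length_eraseIdx, if_pos i.2, hl]
    rfl
  have hget : (fun s : Fin N => (l.eraseIdx (i : ℕ)).get (Fin.cast hlen.symm s)) =
      fun s => w ((finCongr hl i).succAbove s) := by
    funext s
    simp only [hw, List.get_eq_getElem, List.getElem_eraseIdx, Fin.val_cast]
    by_cases hs : (s : ℕ) < i
    · rw [dif_pos hs]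
      congr 1
      rw [Fin.succAbove_of_castSucc_lt _ _ (by
        rw [Fin.lt_def]
        exact hs)]
      rfl
    · rw [dif_neg hs]
      congr 1
      rw [Fin.succAbove_of_le_castSucc _ _ (by
        rw [Fin.le_def]
        exact not_lt.1 hs)]
      rfl
  unfold dgL
  rw [dif_pos hlen, hget]
  rfl

end Pool.Agent.Helper27.Ct
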